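import Pool.Agent.X286.Co.Union

/-!
Random linear codes over a finite field have only scalar monomial automorphisms.
-/

namespace Pool.Agent.Results.MP_7f4d3c_lc.ScalarAutomorphisms

open Filter Topology

/-- The monomial map `(d, σ)`: `x ↦ (d_1 x_{σ⁻¹(1)}, …, d_n x_{σ⁻¹(n)})`, with all `d_i` nonzero. -/
def monomialMap {K : Type*} [Field K] {n : ℕ} (d : Fin n → Kˣ) (σ : Equiv.Perm (Fin n)) :
    (Fin n → K) →ₗ[K] (Fin n → K) where
  toFun x := fun i => (d i : K) * x (σ⁻¹ i)
  map_add' x y := by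
    funext i
    simp [mul_add]
  map_smul' a x := by
    funext i
    simp only [Pi.smul_apply, smul_eq_mul, RingHom.id_apply]
    ring

/-- The monomial automorphisms of the code `C`. -/
def Aut {K : Type*} [Field K] {n : ℕ} (C : Submodule K (Fin n → K)) :
    Set ((Fin n → K) →ₗ[K] (Fin n → K)) :=
  {φ | (∃ (d : Fin n → Kˣ) (σ : Equiv.Perm (Fin n)), φ = monomialMap d σ) ∧ C.map φ = C}

/-- The scalar maps `c • id` with `c` nonzero. -/
def Scalars (K : Type*) [Field K] (n : ℕ) : Set ((Fin n → K) →ₗ[K] (Fin n → K)) :=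
  {φ | ∃ c : Kˣ, φ = (c : K) • LinearMap.id}

open Pool.Agent.X286.Co

theorem mono_eq {K : Type*} [Field K] {n : ℕ} (d : Fin n → Kˣ) (σ : Equiv.Perm (Fin n)) :
    monomialMap d σ = mono d σ := rfl

theorem aut_iff {K : Type*} [Field K] {n : ℕ} (C : Submodule K (Fin n → K)) :
    Aut C = Scalars K n ↔ ∀ (d : Fin n → Kˣ) (σ : Equiv.Perm (Fin n)), C.map (mono d σ) = C →
      ∃ c : Kˣ, mono d σ = (c : K) • LinearMap.id := by
  constructor
  · intro h d σ hC
    have : mono d σ ∈ Aut C := ⟨⟨d, σ, rfl⟩, hC⟩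
    rw [h] at this
    exact this
  · intro h
    ext φ
    constructor
    · rintro ⟨⟨d, σ, rfl⟩, hC⟩
      exact h d σ hC
    · rintro ⟨c, rfl⟩
      refine ⟨⟨fun _ => c, 1, ?_⟩, ?_⟩
      · apply LinearMap.ext
        intro x
        funext i
        simp [monomialMap]
      · apply le_antisymm
        · rintro _ ⟨x, hx, rfl⟩
          exact C.smul_mem _ hx
        · intro x hx
          refine ⟨(c⁻¹ : Kˣ) • x, C.smul_mem _ hx, ?_⟩
          show (c : K) • ((c⁻¹ : Kˣ) • x) = x
          rw [← Units.smul_def, smul_smul, mul_inv_cancel, one_smul]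

attribute [local instance] finSub

theorem good_add {K : Type*} [Field K] [Fintype K] (n k : ℕ) :
    Nat.card {C : Submodule K (Fin n → K) // Module.finrank K C = k ∧ Aut C = Scalars K n} +
      numBad K n k = numC K n k := by
  classical
  have : Fintype (Submodule K (Fin n → K)) := Fintype.ofFinite _
  unfold numBad numC
  simp only [Nat.card_eq_fintype_card, Fintype.card_subtype]
  rw [← Finset.card_filter_add_card_filter_not (s := Finset.univ.filter
    (fun C : Submodule K (Fin n → K) => Module.finrank K C = k)) (fun C => Aut C = Scalars K n),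
    Finset.filter_filter, Finset.filter_filter]
  simp only [aut_iff]

theorem numC_pos {K : Type*} [Field K] [Fintype K] (n k : ℕ) (hk : k ≤ n) : 0 < numC K n k := by
  have h := gauss (K := K) (V := Fin n → K) k (by simpa using hk)
  have hpos : 0 < ∏ i : Fin k, ((Fintype.card K)^(Module.finrank K (Fin n → K)) -
      (Fintype.card K)^(i:ℕ)) := by
    apply Finset.prod_pos
    intro i _
    have : (Fintype.card K)^(i:ℕ) < (Fintype.card K)^(Module.finrank K (Fin n → K)) := by
      apply Nat.pow_lt_pow_right (one_lt_q (K := K))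
      have := i.2
      simp only [Module.finrank_fintype_fun_eq_card, Fintype.card_fin]
      omega
    omega
  rw [← h] at hpos
  exact Nat.pos_of_mul_pos_right hpos

/-- the error bound -/
noncomputable def errb (q : ℝ) (n m : ℕ) : ℝ :=
  q * ((1 + q * n * (q^(4*m+1))⁻¹)^n - 1) + (q * n)^n * (3 * (q^(2*m))⁻¹)^m

/-- its majorant in terms of `m` only -/
noncomputable def majo (q : ℝ) (L m : ℕ) : ℝ :=
  q * (Real.exp (4 * (L:ℝ)^2 * ((m:ℝ)^2 / (q^4)^m)) - 1) +
    3 * (2 * q * L)^(2*L) * ((m:ℝ)^(2*L) / (q^2)^m)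

theorem majo_tendsto (q : ℝ) (hq : 1 < q) (L : ℕ) : Tendsto (majo q L) atTop (𝓝 0) := by
  have h1 := tendsto_pow_const_div_const_pow_of_one_lt 2 (r := q^4) (one_lt_pow₀ hq (by norm_num))
  have h2 := tendsto_pow_const_div_const_pow_of_one_lt (2*L) (r := q^2)
    (one_lt_pow₀ hq (by norm_num))
  have h3 : Tendsto (fun m : ℕ => Real.exp (4 * (L:ℝ)^2 * ((m:ℝ)^2 / (q^4)^m))) atTop (𝓝 1) := by
    have := (Real.continuous_exp.tendsto 0).comp
      (by simpa using h1.const_mul (4 * (L:ℝ)^2) : Tendsto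
        (fun m : ℕ => 4 * (L:ℝ)^2 * ((m:ℝ)^2 / (q^4)^m)) atTop (𝓝 0))
    simpa [Function.comp_def] using this
  have h4 := ((h3.sub_const 1).const_mul q).add (h2.const_mul (3 * (2 * q * L)^(2*L)))
  have e : q * (1 - 1) + 3 * (2 * q * (L:ℝ))^(2*L) * 0 = 0 := by ring
  rw [e] at h4
  exact h4

theorem errb_le (q : ℝ) (hq : 1 < q) (L n m : ℕ) (hL : 0 < L) (hn : 0 < n) (hnm : n ≤ 2 * L * m)
    (hm : 3 * (2 * q * L)^(2*L) * ((m:ℝ)^(2*L) / (q^2)^m) ≤ 1) (hm1 : 1 ≤ m) :
    errb q n m ≤ majo q L m := by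
  have hq0 : 0 < q := by linarith
  have hnm' : (n:ℝ) ≤ 2 * L * m := by exact_mod_cast hnm
  have hn0 : (1:ℝ) ≤ n := by exact_mod_cast hn
  have hL0 : (1:ℝ) ≤ L := by exact_mod_cast hL
  have hm0 : (1:ℝ) ≤ m := by exact_mod_cast hm1
  unfold errb majo
  apply add_le_add
  · apply mul_le_mul_of_nonneg_left _ hq0.le
    apply sub_le_sub_right
    have e1 : 1 + q * n * (q^(4*m+1))⁻¹ ≤ Real.exp (q * n * (q^(4*m+1))⁻¹) := by
      have := Real.add_one_le_exp (q * n * (q^(4*m+1))⁻¹)
      linarith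
    calc (1 + q * n * (q^(4*m+1))⁻¹)^n ≤ (Real.exp (q * n * (q^(4*m+1))⁻¹))^n :=
          pow_le_pow_left₀ (by positivity) e1 n
      _ = Real.exp (n * (q * n * (q^(4*m+1))⁻¹)) := by rw [← Real.exp_nat_mul]
      _ ≤ _ := by
        apply Real.exp_le_exp.2
        have e2 : (n:ℝ) * (q * n * (q^(4*m+1))⁻¹) = (n:ℝ)^2 * ((q^4)^m)⁻¹ := by
          rw [pow_succ, pow_mul]
          field_simp
        rw [e2]
        have e3 : 4 * (L:ℝ)^2 * ((m:ℝ)^2 / (q^4)^m) = (2 * L * m)^2 * ((q^4)^m)⁻¹ := by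
          field_simp
          ring
        rw [e3]
        apply mul_le_mul_of_nonneg_right _ (by positivity)
        exact pow_le_pow_left₀ (by positivity) hnm' 2
  · have hb : (1:ℝ) ≤ q * (2 * L * m) := by
      have : (1:ℝ) ≤ 2 * L * m := hn0.trans hnm'
      nlinarith
    have e1 : (q * n)^n ≤ (q * (2 * L * m))^(2 * L * m) := by
      calc (q * n)^n ≤ (q * (2 * L * m))^n :=
            pow_le_pow_left₀ (by positivity) (mul_le_mul_of_nonneg_left hnm' hq0.le) n
        _ ≤ _ := pow_le_pow_right₀ hb hnm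
    have e2 : (q * n)^n * (3 * (q^(2*m))⁻¹)^m ≤
        (3 * (2 * q * L)^(2*L) * ((m:ℝ)^(2*L) / (q^2)^m))^m := by
      calc (q * n)^n * (3 * (q^(2*m))⁻¹)^m ≤
            (q * (2 * L * m))^(2 * L * m) * (3 * (q^(2*m))⁻¹)^m :=
            mul_le_mul_of_nonneg_right e1 (by positivity)
        _ = ((q * (2 * L * m))^(2 * L) * (3 * (q^(2*m))⁻¹))^m := by
            rw [mul_pow ((q * (2 * (L:ℝ) * m))^(2 * L)), ← pow_mul]
        _ = _ := by
            congr 1
            have : q * (2 * (L:ℝ) * m) = (2 * q * L) * m := by ring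
            rw [this, mul_pow, pow_mul q 2 m]
            field_simp
    refine e2.trans ?_
    exact pow_le_of_le_one (by positivity) hm (by omega)

/-- **Monomial automorphisms of random linear codes.** -/
theorem result (K : Type*) [Field K] [Fintype K] (R : ℝ) (hR0 : 0 < R) (hR1 : R < 1) :
    Tendsto (fun n : ℕ =>
      (Nat.card {C : Submodule K (Fin n → K) //
        Module.finrank K C = ⌊R * n⌋₊ ∧ Aut C = Scalars K n} : ℝ) /
      (Nat.card {C : Submodule K (Fin n → K) // Module.finrank K C = ⌊R * n⌋₊} : ℝ))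
      atTop (𝓝 1) := by
  classical
  set q : ℝ := (Fintype.card K : ℝ) with hq
  have hq1 : (1:ℝ) < q := by rw [hq]; exact_mod_cast (one_lt_q (K := K))
  set a : ℝ := min R (1 - R) with ha
  have ha0 : 0 < a := lt_min hR0 (by linarith)
  have haR : a ≤ R := min_le_left _ _
  have haR1 : a ≤ 1 - R := min_le_right _ _
  obtain ⟨L, hL⟩ := exists_nat_ge (96 / a + 1)
  have hL1 : (1:ℝ) ≤ L := by
    have : 0 < 96 / a := by positivity
    linarith
  have hLpos : 0 < L := by exact_mod_cast (by linarith : (0:ℝ) < L)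
  have hLa : 96 ≤ a * L := by
    have : 96 / a ≤ L := by linarith
    rw [div_le_iff₀ ha0] at this
    linarith
  have hdiv : Tendsto (fun n : ℕ => n / L) atTop atTop := Nat.tendsto_div_const_atTop hLpos.ne'
  have hmaj : Tendsto (fun n : ℕ => 1 - majo q L (n / L)) atTop (𝓝 1) := by
    have := ((majo_tendsto q hq1 L).comp hdiv).const_sub 1
    simpa using this
  have hy : Tendsto (fun m : ℕ => 3 * (2 * q * (L:ℝ))^(2*L) * ((m:ℝ)^(2*L) / (q^2)^m))
      atTop (𝓝 0) := by
    have := (tendsto_pow_const_div_const_pow_of_one_lt (2*L) (r := q^2)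
      (one_lt_pow₀ hq1 (by norm_num))).const_mul (3 * (2 * q * (L:ℝ))^(2*L))
    simpa using this
  have hy1 := hdiv.eventually (hy.eventually (ge_mem_nhds (zero_lt_one' ℝ)))
  obtain ⟨N, hN⟩ := exists_nat_ge (26 / a)
  refine tendsto_of_tendsto_of_tendsto_of_le_of_le' hmaj tendsto_const_nhds ?_ ?_
  · filter_upwards [hy1, eventually_ge_atTop N, eventually_ge_atTop L] with n h1 h2 h3
    have hn1 : 0 < n := by omega
    have hnR : (26:ℝ) ≤ a * n := by
      have : 26 / a ≤ n := hN.trans (by exact_mod_cast h2)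
      rw [div_le_iff₀ ha0] at this
      linarith
    set m := n / L with hm
    set k := ⌊R * n⌋₊ with hk
    have hm1 : 1 ≤ m := (Nat.one_le_div_iff hLpos).2 h3
    have hmL : m * L ≤ n := Nat.div_mul_le_self n L
    have hnlt : n < (m + 1) * L := by
      rw [hm, mul_comm]
      exact Nat.lt_mul_div_succ n hLpos
    have hnm : n ≤ 2 * L * m := by nlinarith
    have hmn : 96 * (m:ℝ) ≤ a * n := by
      have e1 : (m:ℝ) * L ≤ n := by exact_mod_cast hmL
      have e2 : (m:ℝ) * 96 ≤ m * (a * L) := mul_le_mul_of_nonneg_left hLa (Nat.cast_nonneg _)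
      have e3 : a * (m * L) ≤ a * n := mul_le_mul_of_nonneg_left e1 ha0.le
      linarith
    have hk1 : (k:ℝ) ≤ R * n := Nat.floor_le (by positivity)
    have hk2 : R * n < k + 1 := Nat.lt_floor_add_one _
    have hn0 : (0:ℝ) ≤ n := Nat.cast_nonneg _
    have c1 : 12 * (4 * m + 1) ≤ k := by
      have : (12 * (4 * m + 1) : ℝ) ≤ k := by
        have := mul_le_mul_of_nonneg_right haR hn0
        linarith
      exact_mod_cast this
    have c2 : 12 * (4 * m + 1) + k ≤ n := by
      have : (12 * (4 * m + 1) + k : ℝ) ≤ n := by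
        have := mul_le_mul_of_nonneg_right haR1 hn0
        linarith
      exact_mod_cast this
    have hcount := count (K := K) k m c1 c2
    have herr := errb_le q hq1 L n m hLpos hn1 hnm h1 hm1
    have hpos : (0:ℝ) < numC K n k := by
      exact_mod_cast numC_pos (K := K) n k (by omega)
    have hgood := good_add (K := K) n k
    have hgood' : (Nat.card {C : Submodule K (Fin n → K) // Module.finrank K C = k ∧
        Aut C = Scalars K n} : ℝ) + numBad K n k = numC K n k := by exact_mod_cast hgood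
    show 1 - majo q L m ≤ (Nat.card {C : Submodule K (Fin n → K) // Module.finrank K C = k ∧
        Aut C = Scalars K n} : ℝ) / numC K n k
    rw [le_div_iff₀ hpos]
    have e4 : (numBad K n k : ℝ) ≤ numC K n k * majo q L m :=
      hcount.trans (mul_le_mul_of_nonneg_left herr hpos.le)
    linarith
  · filter_upwards with n
    apply div_le_one_of_le₀ _ (Nat.cast_nonneg _)
    have : Finite {C : Submodule K (Fin n → K) // Module.finrank K C = ⌊R * n⌋₊} := inferInstance
    exact_mod_cast Nat.card_le_card_of_injective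
      (fun C : {C : Submodule K (Fin n → K) //
        Module.finrank K C = ⌊R * n⌋₊ ∧ Aut C = Scalars K n} =>
        (⟨C.1, C.2.1⟩ : {C : Submodule K (Fin n → K) // Module.finrank K C = ⌊R * n⌋₊}))
      (fun C C' h => Subtype.ext (Subtype.mk.inj h))

end Pool.Agent.Results.MP_7f4d3c_lc.ScalarAutomorphisms
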